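import Pool.Agent.Helper64.DT.Stmts

set_option autoImplicit false

/-! MP_866009_co, project DT: a component that is not mixed is a singleton (SNG). -/

namespace Pool.Agent.Helper64.DT

open Pool.Agent.Helper64.CT

open Pool.Agent.Helper64.HG (Ovl Model Circ IC HellyCircle ChordModel)

theorem sng_att {V : Type} {G : SimpleGraph V} {c z a b : V} (ha : Comp G c z a)
    (hb : ¬ Comp G c z b) (hab : G.Adj a b) : b ∈ Att G c z := by
  have hcb : G.Adj c b := by
    by_contra h
    by_cases hbc : b = c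
    · rw [hbc] at hab
      exact ha.right.2 hab.symm
    · exact hb (ha.step ⟨hbc, h⟩ hab)
  exact ⟨hcb, a, ha, hab.symm⟩

theorem st_SNG (hATT : CT.ST_ATT) : ST_SNG := by
  intro V G hG hP c z hz hmix u hu
  by_contra hne
  obtain ⟨n, hn⟩ := hATT V G hG c z hz
  apply hP {w | Comp G c z w}
  refine ⟨?_, ⟨z, Comp.refl hz, u, hu, Ne.symm hne⟩, ⟨c, ?_, n, ?_, ?_⟩⟩
  · intro a ha a' ha' b hb b' hb' hab hab'
    have h1 := sng_att ha hb hab
    have h2 := sng_att ha' hb' hab'
    by_contra h3
    exact hmix a ha ⟨⟨b, h1, hab⟩, b', h2, h3⟩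
  · intro h
    exact (Comp.right h).1 rfl
  · intro h
    exact (Comp.right h).2 hn.1
  · intro h
    rw [← h] at hn
    exact G.loopless.irrefl c hn.1

end Pool.Agent.Helper64.DT
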